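import Pool.Agent.H38.WT.Targets

/-!
# Rows SG and SH of wt_modules
-/

set_option autoImplicit false

namespace Pool.Agent.H99.WT

open Pool.Agent.H38.WT

theorem sab_lt {n : ℕ} (x : Fin (n + 1)) (a : Fin n) (h : (a : ℕ) < x) :
    ((x.succAbove a : Fin (n + 1)) : ℕ) = a := by
  rw [Fin.succAbove_of_castSucc_lt x a (by rw [Fin.lt_def]; exact h)]
  rfl

theorem sab_ge {n : ℕ} (x : Fin (n + 1)) (a : Fin n) (h : (x : ℕ) ≤ a) :
    ((x.succAbove a : Fin (n + 1)) : ℕ) = a + 1 := by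
  rw [Fin.succAbove_of_le_castSucc x a (by rw [Fin.le_def]; exact h)]
  rfl

theorem pJ_adj {n : ℕ} (i j : Fin n) : (pJ n).Adj i j ↔
    (((i : ℕ) + 1 = j ∧ (i : ℕ) ≠ 1) ∨ ((j : ℕ) + 1 = i ∧ (j : ℕ) ≠ 1) ∨
    ((i : ℕ) = 0 ∧ (j : ℕ) = 2) ∨ ((i : ℕ) = 2 ∧ (j : ℕ) = 0)) := Iff.rfl

theorem pf_SG : T_SG := by
  intro n hn x x' hx hx'
  unfold Pr
  rw [Nat.card_eq_zero]
  left
  refine ⟨?_⟩
  rintro ⟨⟨U, i, i'⟩, -, h1, h2⟩
  simp only at h1 h2
  -- the vertex `2`
  have hn1 : 1 < n := by omega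
  have hn2 : 2 < n := by omega
  have hn3 : 3 < n := by omega
  obtain ⟨v, hv⟩ : ∃ v : Fin (n + 1), (v : ℕ) = 2 := ⟨⟨2, by omega⟩, rfl⟩
  have hv1 : v = x.succAbove ⟨1, hn1⟩ := by
    apply Fin.ext
    rw [sab_ge x _ hx, hv]
  have hv2 : v = x'.succAbove ⟨2, hn2⟩ := by
    apply Fin.ext
    rw [sab_lt x' _ (by simp only; omega), hv]
  -- the neighbours of `2` are at most `1`
  have hnb : ∀ w : Fin (n + 1), U.Adj v w → (w : ℕ) ≤ 1 := by
    intro w hw
    by_cases hwx : w = x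
    · rw [hwx]; exact hx
    · obtain ⟨b, hb⟩ := Fin.exists_succAbove_eq hwx
      have hb1 : (⟨1, hn1⟩ : Fin n) ≠ b := by
        rintro rfl
        rw [hv1, ← hb] at hw
        exact U.irrefl hw
      have h3 := (h1.2 ⟨1, hn1⟩ b hb1).2 (Or.inl (by rw [← hv1, hb]; exact hw))
      rw [pJ_adj] at h3
      simp only at h3
      have hb0 : (b : ℕ) = 0 := by omega
      rw [← hb]
      by_cases hx0 : (x : ℕ) ≤ b
      · rw [sab_ge x b hx0]; omega
      · rw [sab_lt x b (by omega)]; omega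
  have h4 := (h2.2 ⟨2, hn2⟩ ⟨3, hn3⟩ (by
    intro h
    have := congrArg Fin.val h
    simp at this)).1 (by
      rw [pJ_adj]
      simp)
  rcases h4 with h4 | ⟨h4, h5⟩ | ⟨h4, h5⟩
  · rw [← hv2] at h4
    have h6 := hnb _ h4
    by_cases hx3 : (x' : ℕ) ≤ 3
    · rw [sab_ge x' _ (by simpa using hx3)] at h6
      simp at h6
    · rw [sab_lt x' _ (by simp only; omega)] at h6
      simp at h6
  · have h6 := h2.1
    rw [← h4, ← hv2] at h6
    have h7 := hnb _ h6.symm
    omega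
  · rw [← hv2] at h5
    have h7 := hnb _ h5.symm
    omega

theorem pf_SH : T_SH := by
  intro n hn U x x' i i' hx hxx hx' h1 h2
  have hxx' : (x : ℕ) < x' := hxx
  constructor
  · by_contra hi
    have hi3 : 3 ≤ (i : ℕ) := by omega
    have hxn : (x : ℕ) < n := by omega
    have e1 : x = x'.succAbove ⟨x, hxn⟩ := by
      apply Fin.ext
      rw [sab_lt x' _ (by simpa using hxx')]
    have e2 : x.succAbove i = x'.succAbove i := by
      apply Fin.ext
      rw [sab_ge x i (by omega), sab_ge x' i (by omega)]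
    have h3 : U.Adj (x'.succAbove ⟨x, hxn⟩) (x'.succAbove i) := by
      rw [← e1, ← e2]
      exact h1.1
    have hne : (⟨x, hxn⟩ : Fin n) ≠ i := by
      intro h
      have := congrArg Fin.val h
      simp only at this
      omega
    have h4 := (h2.2 ⟨x, hxn⟩ i hne).2 (Or.inl h3)
    rw [pJ_adj] at h4
    simp only at h4
    omega
  · by_contra hi
    have hi3 : 3 ≤ (i' : ℕ) := by omega
    have hxn : (x' : ℕ) - 1 < n := by omega
    have e1 : x' = x.succAbove ⟨(x' : ℕ) - 1, hxn⟩ := by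
      apply Fin.ext
      rw [sab_ge x _ (by simp only; omega)]
      simp only
      omega
    have e2 : x'.succAbove i' = x.succAbove i' := by
      apply Fin.ext
      rw [sab_ge x i' (by omega), sab_ge x' i' (by omega)]
    have h3 : U.Adj (x.succAbove ⟨(x' : ℕ) - 1, hxn⟩) (x.succAbove i') := by
      rw [← e1, ← e2]
      exact h2.1
    have hne : (⟨(x' : ℕ) - 1, hxn⟩ : Fin n) ≠ i' := by
      intro h
      have := congrArg Fin.val h
      simp only at this
      omega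
    have h4 := (h1.2 ⟨(x' : ℕ) - 1, hxn⟩ i' hne).2 (Or.inl h3)
    rw [pJ_adj] at h4
    simp only at h4
    omega

end Pool.Agent.H99.WT
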